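import Pool.Agent.Helper52.SM.Goals
import Pool.Agent.Helper17.SX.SET

/-!
# SM-STM: one step of the search, for algorithms
-/

namespace Pool.Agent.Helper24.SM

open Pool.Agent.Helper81.CC Pool.Agent.Helper78.DT Pool.Agent.Helper51.ZP Pool.Agent.Helper65.CS
open Pool.Agent.Helper52.SX (Tup ixv tv fract NFT rstT lossT PgtStmt NutStmt RttStmt)
open Pool.Agent.Helper52.SM
open Pool.Agent.Helper78

theorem nft_mono {n W W' l : ℕ} {z : Tup} (h : NFT n W l z) (hW : W ≤ W') : NFT n W' l z :=
  fun F hF => ⟨fun e he => ⟨((h F hF).1 e he).1, ((h F hF).1 e he).2.1.trans hW,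
    ((h F hF).1 e he).2.2⟩, (h F hF).2⟩

theorem fract_eq (n : ℕ) (z : Tup) : fract n z = pr fun x : Fin n → Bool => tv x z = true := by
  rw [pr_eq_card]
  unfold fract
  simp

theorem ov_coins {m : ℕ} {e s : List (ℕ × Bool)} (he : ∀ p ∈ e, p.1 ∈ al m s)
    (y : Fin m → Bool) : ov s (PM.coins (ovr e y)) = ov (e ++ s) (PM.coins y) := by
  funext v
  unfold ov ovb PM.coins ovr
  simp only [List.contains_eq_mem, decide_eq_true_eq, List.mem_append]
  by_cases h1 : (v, true) ∈ s
  · simp [h1]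
  · by_cases h2 : (v, false) ∈ s
    · have h3 : (v, true) ∉ e := fun h4 => Pool.Agent.Helper15.CS.not_mem_of_mem_al (he _ h4) false h2
      simp [h1, h2, h3]
    · by_cases hv : v < m
      · simp [h1, h2, hv]
      · have h3 : ∀ β, (v, β) ∉ e := fun β h4 =>
          hv (Pool.Agent.Helper15.CS.mem_al.mp (he _ h4)).1
        simp [h1, h2, hv, h3]

theorem stm (hT : TupStmt) (hP : PgtStmt) (hR : RttStmt) (hC : CndStmt) (hA : AlnStmt) :
    StmStmt := by
  intro A c k g hg x N W b u0 c1 M ε s hnds hsm hmN hW hε hN hM hc1 hb hNM hloss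
  have hUpos : (0 : ℝ) < (lg N : ℝ) ^ k := by
    have : (0 : ℝ) < (lg N : ℝ) := by
      have h2 : 0 < lg N := by
        unfold lg
        omega
      exact_mod_cast h2
    positivity
  have hg1 := abs_le.1 (hg x s N)
  rcases hfind : (cands b M (A.m x) s).find?
      (fun e => decide (g (x, s, N) ≤ g (x, e ++ s, N) + 3)) with _ | e
  · -- no candidate
    have hstep : stepM g x b M (A.m x) N s = s := by
      unfold stepM
      rw [hfind]
    rw [hstep]
    have hnone := List.find?_eq_none.1 hfind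
    have hal : al (A.m x) s = [] := by
      by_contra hne
      have hnM : ((A.m x : ℕ) : ℝ) / M ≤ (1 / 2 ^ b) ^ (c1 + u0) := by
        refine le_trans (div_le_div_of_nonneg_right ?_ (by positivity)) hNM
        exact_mod_cast hmN
      obtain ⟨z, hz, hzl, hzi, hzp⟩ := hT A c x s ε N hnds hsm hε hN
      obtain ⟨e, he, hfe⟩ := hP (A.m x) W N b u0 c1 M s z (nft_mono hz hW) hM hc1 hb hnM hne
      obtain ⟨hnd, hea, -, -⟩ := (hC b M (A.m x) s).2.2.1 e he
      have hen : ∀ p ∈ e, p.1 < A.m x := fun p hp => (Pool.Agent.Helper15.CS.mem_al.mp (hea p hp)).1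
      rw [hzl] at hfe
      have hm := Pool.Agent.Helper17.SX.lossT_mono (2 * A.r x) W b u0 c1 M (A.m x) N N hmN
      have h0 : fract (A.m x) (rstT e z) ≤ phi A c x (e ++ s) := by
        rw [fract_eq]
        refine pr_mono fun y hy => ?_
        rw [hR.2 (A.m x) e z y hnd hen] at hy
        have h := hzi (ovr e y) hy
        rwa [ov_coins hea] at h
      have hg2 := abs_le.1 (hg x (e ++ s) N)
      have h3 : (g (x, s, N) : ℝ) / (lg N : ℝ) ^ k ≤
          ((g (x, e ++ s, N) : ℝ) + 3) / (lg N : ℝ) ^ k := by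
        have : ((g (x, e ++ s, N) : ℝ) + 3) / (lg N : ℝ) ^ k =
            (g (x, e ++ s, N) : ℝ) / (lg N : ℝ) ^ k + 3 * (1 / (lg N : ℝ) ^ k) := by
          ring
        rw [this]
        linarith [hg1.2, hg2.1]
      have h4 : (g (x, s, N) : ℝ) ≤ (g (x, e ++ s, N) : ℝ) + 3 :=
        (div_le_div_iff_of_pos_right hUpos).1 h3
      have h5 : g (x, s, N) ≤ g (x, e ++ s, N) + 3 := by exact_mod_cast h4
      have h6 := hnone e he
      simp only [decide_eq_true_eq] at h6
      exact h6 h5
    refine ⟨hnds, hsm, ?_, ?_⟩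
    · have : 0 ≤ 5 / (lg N : ℝ) ^ k := by positivity
      linarith
    · rw [hal]
      simp
  · have hstep : stepM g x b M (A.m x) N s = e ++ s := by
      unfold stepM
      rw [hfind]
    rw [hstep]
    have hmem : e ∈ cands b M (A.m x) s := List.mem_of_find?_eq_some hfind
    have hp := List.find?_some hfind
    simp only [decide_eq_true_eq] at hp
    obtain ⟨hnd, hea, h1, hlen2⟩ := (hC b M (A.m x) s).2.2.1 e hmem
    have hen : ∀ p ∈ e, p.1 < A.m x := fun p hp => (Pool.Agent.Helper15.CS.mem_al.mp (hea p hp)).1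
    have hg2 := abs_le.1 (hg x (e ++ s) N)
    refine ⟨?_, ?_, ?_, ?_⟩
    · rw [List.map_append, List.nodup_append]
      refine ⟨hnd, hnds, ?_⟩
      intro a ha b hb hab
      rw [List.mem_map] at ha hb
      obtain ⟨p, hp, rfl⟩ := ha
      obtain ⟨q, hq, rfl⟩ := hb
      exact Pool.Agent.Helper15.CS.not_mem_of_mem_al (hea p hp) q.2 (by rw [hab]; exact hq)
    · intro p hp
      rcases List.mem_append.mp hp with h | h
      · exact hen p h
      · exact hsm p h
    · have h4 : (g (x, s, N) : ℝ) ≤ (g (x, e ++ s, N) : ℝ) + 3 := by exact_mod_cast hp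
      have h5 := div_le_div_of_nonneg_right h4 hUpos.le
      have h6 : ((g (x, e ++ s, N) : ℝ) + 3) / (lg N : ℝ) ^ k =
          (g (x, e ++ s, N) : ℝ) / (lg N : ℝ) ^ k + 3 * (1 / (lg N : ℝ) ^ k) := by
        ring
      have h7 : 5 / (lg N : ℝ) ^ k = 5 * (1 / (lg N : ℝ) ^ k) := by ring
      rw [h7]
      linarith [hg1.1, hg2.2]
    · have h8 := hA (A.m x) e s hnd hea
      nlinarith

end Pool.Agent.Helper24.SM
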